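import Pool.Agent.N226.SX.St

/-!
# Sequences with small differences of all orders: products, exponentials, weights
-/

set_option autoImplicit false

namespace Pool.Agent.U611.TB

open Finset Filter Topology Pool.Agent.N226.SX

/-- the difference of order `i` is `O(n ^ (-(a i + c)))` for all `i ≤ r` -/
def B (a : ℝ) (r : ℕ) (c : ℝ) (f : ℕ → ℝ) : Prop := ∀ i ≤ r, Bd f i (a * i + c)

/-- the same for all orders -/
def BB (a c : ℝ) (f : ℕ → ℝ) : Prop := ∀ r, B a r c f

variable {a c c' : ℝ} {r : ℕ} {f g : ℕ → ℝ}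

theorem B_zero : B a 0 c f ↔ Bd f 0 c :=
  ⟨fun h => by simpa using h 0 le_rfl, fun h i hi => by
    obtain rfl : i = 0 := by omega
    simpa using h⟩

theorem B.mono (h : B a r c f) {r' : ℕ} (hr : r' ≤ r) (hc : c' ≤ c) : B a r' c' f :=
  fun i hi => (h i (hi.trans hr)).mono (by linarith)

theorem BB.mono (h : BB a c f) (hc : c' ≤ c) : BB a c' f := fun r => (h r).mono le_rfl hc

theorem Bd_succ {t : ℕ} {d : ℝ} : Bd f (t + 1) d ↔ Bd (fun n => f n - f (n + 1)) t d := by
  unfold Bd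
  simp only [D_succ']

theorem B_succ : B a (r + 1) c f ↔ B a 0 c f ∧ B a r (c + a) (fun n => f n - f (n + 1)) := by
  constructor
  · intro h
    refine ⟨h.mono (by omega) le_rfl, fun i hi => ?_⟩
    have := h (i + 1) (by omega)
    rw [Bd_succ] at this
    refine this.mono (le_of_eq ?_)
    push_cast; ring
  · rintro ⟨h0, h1⟩ i hi
    cases i with
    | zero => exact h0 0 le_rfl
    | succ i =>
      rw [Bd_succ]
      refine (h1 i (by omega)).mono (le_of_eq ?_)
      push_cast; ring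

theorem B.add (hf : B a r c f) (hg : B a r c g) : B a r c (fun n => f n + g n) :=
  fun i hi => (hf i hi).add (hg i hi)

theorem B.sub (hf : B a r c f) (hg : B a r c g) : B a r c (fun n => f n - g n) :=
  fun i hi => (hf i hi).sub (hg i hi)

theorem B.smul (x : ℝ) (hf : B a r c f) : B a r c (fun n => x * f n) :=
  fun i hi => (hf i hi).smul x

theorem B_const (x : ℝ) : B a r 0 (fun _ => x) := by
  intro i _
  cases i with
  | zero =>
    refine ⟨|x|, Eventually.of_forall fun n => ?_⟩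
    rw [D_zero]
    simp
  | succ i =>
    refine ⟨0, Eventually.of_forall fun n => ?_⟩
    rw [D_const]
    simp

theorem Bd_shift {t : ℕ} {d : ℝ} (hd : 0 ≤ d) (h : Bd f t d) : Bd (fun n => f (n + 1)) t d := by
  obtain ⟨C, hC⟩ := h
  refine ⟨|C|, ?_⟩
  have h1 : Tendsto (fun n : ℕ => n + 1) atTop atTop := tendsto_add_atTop_nat 1
  filter_upwards [h1.eventually hC, eventually_ge_atTop 1] with n hn hn1
  have hn0 : (0 : ℝ) < n := by exact_mod_cast hn1
  have e : D t (fun n => f (n + 1)) n = D t f (n + 1) := by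
    unfold D
    refine Finset.sum_congr rfl fun i _ => ?_
    simp only
    rw [show n + i + 1 = n + 1 + i by ring]
  rw [e]
  refine hn.trans ?_
  calc C * ((n + 1 : ℕ) : ℝ) ^ (-d) ≤ |C| * ((n + 1 : ℕ) : ℝ) ^ (-d) :=
        mul_le_mul_of_nonneg_right (le_abs_self C) (by positivity)
    _ ≤ |C| * (n : ℝ) ^ (-d) := mul_le_mul_of_nonneg_left
        (Real.rpow_le_rpow_of_nonpos hn0 (by push_cast; linarith) (by linarith)) (abs_nonneg C)

theorem B.shift (ha : 0 ≤ a) (hc : 0 ≤ c) (h : B a r c f) : B a r c (fun n => f (n + 1)) :=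
  fun i hi => Bd_shift (by positivity) (h i hi)

theorem Bd_mul0 {d d' : ℝ} (hf : Bd f 0 d) (hg : Bd g 0 d') : Bd (fun n => f n * g n) 0 (d + d') := by
  obtain ⟨C, hC⟩ := hf
  obtain ⟨C', hC'⟩ := hg
  refine ⟨|C| * |C'|, ?_⟩
  filter_upwards [hC, hC', eventually_ge_atTop 1] with n h1 h2 h3
  have hn0 : (0 : ℝ) < n := by exact_mod_cast h3
  rw [D_zero] at h1 h2 ⊢
  rw [abs_mul]
  have h4 : |f n| ≤ |C| * (n : ℝ) ^ (-d) :=
    h1.trans (mul_le_mul_of_nonneg_right (le_abs_self C) (by positivity))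
  have h5 : |g n| ≤ |C'| * (n : ℝ) ^ (-d') :=
    h2.trans (mul_le_mul_of_nonneg_right (le_abs_self C') (by positivity))
  calc |f n| * |g n| ≤ (|C| * (n : ℝ) ^ (-d)) * (|C'| * (n : ℝ) ^ (-d')) :=
        mul_le_mul h4 h5 (abs_nonneg _) (by positivity)
    _ = |C| * |C'| * (n : ℝ) ^ (-(d + d')) := by
        rw [neg_add, Real.rpow_add hn0]
        ring

theorem B_mul (ha : 0 ≤ a) : ∀ (r : ℕ) (f g : ℕ → ℝ) (c c' : ℝ), 0 ≤ c → 0 ≤ c' →
    B a r c f → B a r c' g → B a r (c + c') (fun n => f n * g n) := by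
  intro r
  induction r with
  | zero =>
    intro f g c c' _ _ hf hg
    rw [B_zero] at hf hg ⊢
    exact Bd_mul0 hf hg
  | succ r ih =>
    intro f g c c' hc hc' hf hg
    have hf1 := hf.mono (Nat.le_succ r) le_rfl
    have hg1 := hg.mono (Nat.le_succ r) le_rfl
    obtain ⟨hf0, hfd⟩ := B_succ.1 hf
    obtain ⟨hg0, hgd⟩ := B_succ.1 hg
    refine B_succ.2 ⟨?_, ?_⟩
    · rw [B_zero] at hf0 hg0 ⊢
      exact Bd_mul0 hf0 hg0
    · have h1 := ih f (fun n => g n - g (n + 1)) c (c' + a) hc (by linarith) hf1 hgd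
      have h2 := ih (fun n => f n - f (n + 1)) (fun n => g (n + 1)) (c + a) c' (by linarith) hc'
        hfd (hg1.shift ha hc')
      have h3 := (h1.mono le_rfl (le_of_eq (by ring) : c + c' + a ≤ _)).add
        (h2.mono le_rfl (le_of_eq (by ring) : c + c' + a ≤ _))
      refine cast ?_ h3
      congr 1
      funext n
      ring

theorem BB.mul (ha : 0 ≤ a) (hc : 0 ≤ c) (hc' : 0 ≤ c') (hf : BB a c f) (hg : BB a c' g) :
    BB a (c + c') (fun n => f n * g n) := fun r => B_mul ha r f g c c' hc hc' (hf r) (hg r)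

theorem abs_exp_sub_one_le (x : ℝ) : |Real.exp x - 1| ≤ |x| * Real.exp |x| := by
  rcases le_total 0 x with h | h
  · rw [abs_of_nonneg h, abs_of_nonneg (by linarith [Real.add_one_le_exp x])]
    have h1 := Real.add_one_le_exp (-x)
    have h2 : Real.exp (-x) * Real.exp x = 1 := by rw [← Real.exp_add]; simp
    nlinarith [Real.exp_pos x]
  · rw [abs_of_nonpos h, abs_of_nonpos (by linarith [Real.exp_le_one_iff.2 h])]
    have h1 := Real.add_one_le_exp x
    have h2 : 1 ≤ Real.exp (-x) := Real.one_le_exp (by linarith)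
    nlinarith

theorem B_expm1 (ha : 0 ≤ a) : ∀ (r : ℕ) (g : ℕ → ℝ) (c : ℝ), 0 ≤ c →
    B a r c g → B a r c (fun n => Real.exp (g n) - 1) := by
  have base : ∀ (g : ℕ → ℝ) (c : ℝ), 0 ≤ c → B a 0 c g → B a 0 c (fun n => Real.exp (g n) - 1) := by
    intro g c hc h
    rw [B_zero] at h ⊢
    obtain ⟨C, hC⟩ := h
    refine ⟨|C| * Real.exp |C|, ?_⟩
    filter_upwards [hC, eventually_ge_atTop 1] with n h1 h2
    have hn1 : (1 : ℝ) ≤ n := by exact_mod_cast h2
    rw [D_zero] at h1 ⊢
    have h4 : |g n| ≤ |C| * (n : ℝ) ^ (-c) :=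
      h1.trans (mul_le_mul_of_nonneg_right (le_abs_self C) (by positivity))
    have h5 : |g n| ≤ |C| := h4.trans (by
      calc |C| * (n : ℝ) ^ (-c) ≤ |C| * 1 := mul_le_mul_of_nonneg_left
            (Real.rpow_le_one_of_one_le_of_nonpos hn1 (by linarith)) (abs_nonneg C)
        _ = |C| := mul_one _)
    calc |Real.exp (g n) - 1| ≤ |g n| * Real.exp |g n| := abs_exp_sub_one_le _
      _ ≤ (|C| * (n : ℝ) ^ (-c)) * Real.exp |C| :=
          mul_le_mul h4 (Real.exp_le_exp.2 h5) (Real.exp_pos _).le (by positivity)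
      _ = _ := by ring
  intro r
  induction r with
  | zero => exact base
  | succ r ih =>
    intro g c hc hg
    have hg1 := hg.mono (Nat.le_succ r) le_rfl
    obtain ⟨hg0, hgd⟩ := B_succ.1 hg
    refine B_succ.2 ⟨base g c hc hg0, ?_⟩
    have h1 := ih (fun n => -1 * (g n - g (n + 1))) (c + a) (by linarith) (hgd.smul (-1))
    have h2 := ((ih g c hc hg1).mono le_rfl hc).add (B_const (a := a) (r := r) 1)
    have h3 := (B_mul ha r _ _ 0 (c + a) le_rfl (by linarith) h2 h1).smul (-1)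
    refine cast ?_ (h3.mono le_rfl (le_of_eq (by ring) : c + a ≤ _))
    congr 1
    funext n
    have : Real.exp (g (n + 1)) = Real.exp (g n) * Real.exp (-1 * (g n - g (n + 1))) := by
      rw [← Real.exp_add]
      congr 1
      ring
    rw [this]
    ring

theorem BB.expm1 (ha : 0 ≤ a) (hc : 0 ≤ c) (hg : BB a c g) :
    BB a c (fun n => Real.exp (g n) - 1) := fun r => B_expm1 ha r g c hc (hg r)

theorem BB.shift (ha : 0 ≤ a) (hc : 0 ≤ c) (h : BB a c f) : BB a c (fun n => f (n + 1)) :=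
  fun r => (h r).shift ha hc

theorem BB.diff (h : BB a c f) : BB a (c + a) (fun n => f n - f (n + 1)) :=
  fun r => (B_succ.1 (h (r + 1))).2

theorem BB.smul (x : ℝ) (h : BB a c f) : BB a c (fun n => x * f n) := fun r => (h r).smul x

theorem BB.add (hf : BB a c f) (hg : BB a c g) : BB a c (fun n => f n + g n) :=
  fun r => (hf r).add (hg r)

theorem BB.sub (hf : BB a c f) (hg : BB a c g) : BB a c (fun n => f n - g n) :=
  fun r => (hf r).sub (hg r)

/-- the differences of `exp g * Z` -/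
theorem weight (ha : 0 ≤ a) {g : ℕ → ℝ} (hg : BB a a (fun n => g n - g (n + 1))) :
    ∀ (r : ℕ) (Z : ℕ → ℝ) (c : ℝ), 0 ≤ c → BB a c Z → ∃ V : ℕ → ℝ, BB a (c + a * r) V ∧
      ∀ n, D r (fun n => Real.exp (g n) * Z n) n = Real.exp (g n) * V n := by
  intro r
  induction r with
  | zero =>
    intro Z c _ hZ
    refine ⟨Z, ?_, fun n => by rw [D_zero]⟩
    simpa using hZ
  | succ r ih =>
    intro Z c hc hZ
    obtain ⟨V, hV, hE⟩ := ih Z c hc hZ
    have hc' : 0 ≤ c + a * r := by positivity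
    have h1 : BB a (c + a * r + a) (fun n => V n - V (n + 1)) := hV.diff
    have h2 : BB a a (fun n => Real.exp (-1 * (g n - g (n + 1))) - 1) :=
      BB.expm1 ha ha (hg.smul (-1))
    have h3 : BB a (a + (c + a * r)) (fun n =>
        (Real.exp (-1 * (g n - g (n + 1))) - 1) * V (n + 1)) :=
      BB.mul ha ha hc' h2 (hV.shift ha hc')
    refine ⟨fun n => (V n - V (n + 1)) - (Real.exp (-1 * (g n - g (n + 1))) - 1) * V (n + 1),
      ?_, fun n => ?_⟩
    · have h4 := h1.sub (h3.mono (le_of_eq (by ring) : c + a * r + a ≤ _))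
      refine h4.mono (le_of_eq ?_)
      push_cast; ring
    · rw [D_succ, hE, hE]
      have : Real.exp (g (n + 1)) = Real.exp (g n) * Real.exp (-1 * (g n - g (n + 1))) := by
        rw [← Real.exp_add]
        congr 1
        ring
      rw [this]
      ring

end Pool.Agent.U611.TB
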