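import Pool.Agent.U611.TB.Main
import Pool.Agent.U611.DX.Lead

/-!
# Leading orders
-/

set_option autoImplicit false

namespace Pool.Agent.U611.TB

open Finset Filter Topology Pool.Agent.N226.SX

/-- the asymptotic form at the lengths `st * k + ρ` -/
noncomputable def EE (st ρ q : ℕ) (β : ℝ) (c θ : Fin q → ℝ) (k : ℕ) : ℝ :=
  G q β c θ ((st * k + ρ : ℕ) : ℝ)

theorem EE_BB (st : ℕ) (hst : 1 ≤ st) (ρ q : ℕ) (β : ℝ) (c θ : Fin q → ℝ) (hθ : ∀ i, 0 ≤ θ i) :
    ∀ a : ℝ, 0 ≤ a → a ≤ 1 →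
      BB a 1 (fun n => EE st ρ q β c θ n - EE st ρ q β c θ (n + 1)) := by
  intro a ha0 ha1 r i _
  rw [← Bd_succ]
  have h := bd_Gs st hst ρ q β c θ hθ (i + 1) (by omega)
  have e : (fun k : ℕ => G q β c θ (st * k + ρ)) = EE st ρ q β c θ := by
    funext k
    unfold EE
    push_cast
    rfl
  rw [e] at h
  refine h.mono ?_
  push_cast
  have : (0 : ℝ) ≤ i := Nat.cast_nonneg i
  nlinarith

theorem rpow_sub_one_le {θ y : ℝ} (hθ : 0 ≤ θ) (hy : 0 ≤ y) :
    |(1 + y) ^ (-θ) - 1| ≤ θ * y := by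
  have h1 : (1 + y) ^ (-θ) ≤ 1 := Real.rpow_le_one_of_one_le_of_nonpos (by linarith) (by linarith)
  rw [abs_of_nonpos (by linarith)]
  have h2 : (1 + y) ^ (-θ) = Real.exp (-(θ * Real.log (1 + y))) := by
    rw [Real.rpow_def_of_pos (by linarith)]
    congr 1
    ring
  have h3 := Real.add_one_le_exp (-(θ * Real.log (1 + y)))
  have h4 : Real.log (1 + y) ≤ y := by
    have := Real.log_le_sub_one_of_pos (show 0 < 1 + y by linarith)
    linarith
  have h5 := mul_le_mul_of_nonneg_left h4 hθ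
  rw [h2]
  linarith

/-- `x (G (x + s) - G x) → s β` -/
theorem G_lim (s : ℝ) (hs : 0 ≤ s) (q : ℕ) (β : ℝ) (c θ : Fin q → ℝ) (hθ : ∀ i, 0 ≤ θ i) :
    Tendsto (fun x : ℝ => x * (G q β c θ (x + s) - G q β c θ x)) atTop (𝓝 (s * β)) := by
  have h1 : Tendsto (fun x : ℝ => β * (x * Real.log (1 + s / x))) atTop (𝓝 (β * s)) :=
    (Real.tendsto_mul_log_one_add_div_atTop s).const_mul β
  have h2 : ∀ i, Tendsto (fun x : ℝ => c i * (x * ((x + s) ^ (-(θ i)) - x ^ (-(θ i))))) atTop
      (𝓝 0) := by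
    intro i
    have h3 : Tendsto (fun x : ℝ => x * ((x + s) ^ (-(θ i)) - x ^ (-(θ i)))) atTop (𝓝 0) := by
      rcases (hθ i).eq_or_lt with h0 | h0
      · rw [← h0]
        simp
      · have h4 : Tendsto (fun x : ℝ => (θ i * s) * x ^ (-(θ i))) atTop (𝓝 0) := by
          simpa using (tendsto_rpow_neg_atTop h0).const_mul (θ i * s)
        refine squeeze_zero_norm' ?_ h4
        filter_upwards [eventually_ge_atTop 1] with x hx
        have hx0 : 0 < x := by linarith
        have e : (x + s) ^ (-(θ i)) - x ^ (-(θ i)) =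
            x ^ (-(θ i)) * ((1 + s / x) ^ (-(θ i)) - 1) := by
          rw [mul_sub, mul_one, ← Real.mul_rpow hx0.le (by positivity)]
          congr 2
          field_simp
        rw [Real.norm_eq_abs, e, abs_mul, abs_mul, abs_of_pos hx0,
          abs_of_nonneg (Real.rpow_nonneg hx0.le _)]
        have h5 := rpow_sub_one_le (hθ i) (show 0 ≤ s / x by positivity)
        calc x * (x ^ (-(θ i)) * |(1 + s / x) ^ (-(θ i)) - 1|)
            ≤ x * (x ^ (-(θ i)) * (θ i * (s / x))) := by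
              refine mul_le_mul_of_nonneg_left (mul_le_mul_of_nonneg_left h5
                (Real.rpow_nonneg hx0.le _)) hx0.le
          _ = (θ i * s) * x ^ (-(θ i)) := by field_simp
    simpa using h3.const_mul (c i)
  have h3 := h1.add (tendsto_finsetSum Finset.univ fun i _ => h2 i)
  rw [Finset.sum_const_zero, add_zero, mul_comm β s] at h3
  refine h3.congr' ?_
  filter_upwards [eventually_ge_atTop 1] with x hx
  have hx0 : 0 < x := by linarith
  unfold G
  have e1 : Real.log (1 + s / x) = Real.log (x + s) - Real.log x := by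
    rw [← Real.log_div (by linarith) hx0.ne']
    congr 1
    field_simp
  have e2 : ∑ i, c i * (x * ((x + s) ^ (-(θ i)) - x ^ (-(θ i)))) =
      x * (∑ i, c i * (x + s) ^ (-(θ i)) - ∑ i, c i * x ^ (-(θ i))) := by
    rw [← Finset.sum_sub_distrib, Finset.mul_sum]
    exact Finset.sum_congr rfl fun i _ => by ring
  rw [e1, e2]
  ring

/-- `x (exp (G (x + s) - G x) - 1) → s β` -/
theorem exp_lim (s : ℝ) (hs : 0 ≤ s) (q : ℕ) (β : ℝ) (c θ : Fin q → ℝ) (hθ : ∀ i, 0 ≤ θ i) :
    Tendsto (fun x : ℝ => x * (Real.exp (G q β c θ (x + s) - G q β c θ x) - 1)) atTop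
      (𝓝 (s * β)) := by
  have h1 := G_lim s hs q β c θ hθ
  have h2 : Tendsto (fun x : ℝ => G q β c θ (x + s) - G q β c θ x) atTop (𝓝 0) := by
    have h3 := h1.mul tendsto_inv_atTop_zero
    rw [mul_zero] at h3
    refine h3.congr' ?_
    filter_upwards [eventually_ge_atTop 1] with x hx
    have hx0 : 0 < x := by linarith
    field_simp
  have h4 : Tendsto (fun x : ℝ => x * (G q β c θ (x + s) - G q β c θ x) +
      x * (Real.exp (G q β c θ (x + s) - G q β c θ x) - 1 -
        (G q β c θ (x + s) - G q β c θ x))) atTop (𝓝 (s * β + 0)) := by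
    refine h1.add ?_
    have h5 : Tendsto (fun x : ℝ => |x * (G q β c θ (x + s) - G q β c θ x)| *
        |G q β c θ (x + s) - G q β c θ x|) atTop (𝓝 0) := by
      have := h1.abs.mul h2.abs
      simpa using this
    refine squeeze_zero_norm' ?_ h5
    filter_upwards [eventually_ge_atTop 1, h2.abs.eventually (ge_mem_nhds
      (show |(0 : ℝ)| < 1 by simp))] with x hx hx1
    have hx0 : 0 < x := by linarith
    set δ := G q β c θ (x + s) - G q β c θ x with hδ
    have h6 := Real.abs_exp_sub_one_sub_id_le hx1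
    rw [Real.norm_eq_abs, abs_mul, abs_mul, abs_of_pos hx0]
    calc x * |Real.exp δ - 1 - δ| ≤ x * δ ^ 2 := mul_le_mul_of_nonneg_left h6 hx0.le
      _ = x * |δ| * |δ| := by rw [mul_assoc, ← abs_mul, ← sq, abs_of_nonneg (sq_nonneg δ)]
  rw [add_zero] at h4
  refine h4.congr fun x => ?_
  ring

/-- the asymptotic form of the terms -/
theorem term_lim {u : ℕ → ℝ} (st : ℕ) (hst : 1 ≤ st) (ρ q : ℕ) (β : ℝ) (c θ : Fin q → ℝ)
    (hθ : ∀ i, 0 ≤ θ i) {x : ℝ} (hx : 1 < x)
    (h : ∃ C : ℝ, 0 ≤ C ∧ ∀ᶠ k : ℕ in atTop,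
      |Real.exp (u (k + 1)) - (Real.exp (EE st ρ q β c θ (k + 1)) -
        Real.exp (EE st ρ q β c θ k))| ≤ C * Real.exp (EE st ρ q β c θ k) * (k : ℝ) ^ (-x)) :
    Tendsto (fun k : ℕ => ((st * k + ρ : ℕ) : ℝ) * Real.exp (u k - EE st ρ q β c θ k)) atTop
      (𝓝 (st * β)) := by
  obtain ⟨C, hC, hk⟩ := h
  set E := EE st ρ q β c θ with hE
  have hs0 : (0 : ℝ) < st := by exact_mod_cast hst
  have hN : Tendsto (fun k : ℕ => ((st * k + ρ : ℕ) : ℝ)) atTop atTop :=
    tendsto_natCast_atTop_atTop.comp (tendsto_atTop_mono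
      (fun k => (Nat.le_mul_of_pos_left k hst).trans (Nat.le_add_right _ _)) tendsto_id)
  -- the differences of the form
  have h1 : Tendsto (fun k : ℕ => ((st * k + ρ : ℕ) : ℝ) * (Real.exp (E (k + 1) - E k) - 1)) atTop
      (𝓝 (st * β)) := by
    have h2 := (exp_lim st hs0.le q β c θ hθ).comp hN
    refine h2.congr fun k => ?_
    simp only [Function.comp_apply, hE, EE]
    congr 4
    push_cast
    ring
  -- the error
  have h3 : Tendsto (fun k : ℕ => ((st * k + ρ : ℕ) : ℝ) * (Real.exp (u (k + 1) - E k) -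
      (Real.exp (E (k + 1) - E k) - 1))) atTop (𝓝 0) := by
    have h4 : Tendsto (fun k : ℕ => (C * (st + ρ)) * (k : ℝ) ^ (-(x - 1))) atTop (𝓝 0) := by
      have := ((tendsto_rpow_neg_atTop (show 0 < x - 1 by linarith)).comp
        tendsto_natCast_atTop_atTop (α := ℕ)).const_mul (C * (st + ρ))
      simpa using this
    refine squeeze_zero_norm' ?_ h4
    filter_upwards [hk, eventually_ge_atTop 1] with k h5 h6
    have hk1 : (1 : ℝ) ≤ k := by exact_mod_cast h6
    have hk0 : (0 : ℝ) < k := by linarith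
    have e1 : Real.exp (u (k + 1) - E k) - (Real.exp (E (k + 1) - E k) - 1) =
        (Real.exp (u (k + 1)) - (Real.exp (E (k + 1)) - Real.exp (E k))) / Real.exp (E k) := by
      rw [Real.exp_sub, Real.exp_sub]
      field_simp
    have h7 : |Real.exp (u (k + 1) - E k) - (Real.exp (E (k + 1) - E k) - 1)| ≤
        C * (k : ℝ) ^ (-x) := by
      rw [e1, abs_div, abs_of_pos (Real.exp_pos (E k)), div_le_iff₀ (Real.exp_pos _)]
      calc _ ≤ _ := h5
        _ = _ := by ring
    have h8 : ((st * k + ρ : ℕ) : ℝ) ≤ (st + ρ) * k := by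
      push_cast
      have : (ρ : ℝ) ≤ ρ * k := le_mul_of_one_le_right (Nat.cast_nonneg _) hk1
      linarith
    rw [Real.norm_eq_abs, abs_mul, abs_of_nonneg (Nat.cast_nonneg (α := ℝ) _)]
    calc ((st * k + ρ : ℕ) : ℝ) * |Real.exp (u (k + 1) - E k) - (Real.exp (E (k + 1) - E k) - 1)|
        ≤ ((st + ρ) * k) * (C * (k : ℝ) ^ (-x)) :=
          mul_le_mul h8 h7 (abs_nonneg _) (by positivity)
      _ = (C * (st + ρ)) * (k : ℝ) ^ (-(x - 1)) := by
          have : (k : ℝ) ^ (-(x - 1)) = k * (k : ℝ) ^ (-x) := by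
            rw [show -(x - 1) = 1 + -x by ring, Real.rpow_add hk0, Real.rpow_one]
          rw [this]
          ring
  have h4 : Tendsto (fun k : ℕ => ((st * k + ρ : ℕ) : ℝ) * Real.exp (u (k + 1) - E k)) atTop
      (𝓝 (st * β)) := by
    have := h1.add h3
    rw [add_zero] at this
    refine this.congr fun k => ?_
    ring
  -- from `k` to `k + 1`
  have hd : Tendsto (fun k : ℕ => Real.exp (E (k + 1) - E k)) atTop (𝓝 1) := by
    have h5 := (h1.mul (tendsto_inv_atTop_zero.comp hN)).add_const 1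
    rw [mul_zero, zero_add] at h5
    refine h5.congr' ?_
    filter_upwards [hN.eventually_gt_atTop 0] with k hk
    simp only [Function.comp_apply]
    field_simp
    ring
  have hr : Tendsto (fun k : ℕ => ((st * (k + 1) + ρ : ℕ) : ℝ) / ((st * k + ρ : ℕ) : ℝ)) atTop
      (𝓝 1) := by
    have h5 := ((tendsto_inv_atTop_zero.comp hN).const_mul (st : ℝ)).add_const 1
    rw [mul_zero, zero_add] at h5
    refine h5.congr' ?_
    filter_upwards [hN.eventually_gt_atTop 0] with k hk
    simp only [Function.comp_apply]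
    field_simp
    push_cast
    ring
  have h6 : Tendsto (fun k : ℕ => ((st * (k + 1) + ρ : ℕ) : ℝ) *
      Real.exp (u (k + 1) - E (k + 1))) atTop (𝓝 (st * β)) := by
    have h7 := (h4.mul hr).div hd one_ne_zero
    rw [mul_one, div_one] at h7
    refine h7.congr' ?_
    filter_upwards [hN.eventually_gt_atTop 0] with k hk
    simp only [Pi.div_apply]
    rw [Real.exp_sub, Real.exp_sub, Real.exp_sub]
    have a1 := Real.exp_pos (E k)
    have a2 := Real.exp_pos (E (k + 1))
    field_simp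
  rwa [tendsto_add_atTop_iff_nat (f := fun k : ℕ => ((st * k + ρ : ℕ) : ℝ) *
      Real.exp (u k - E k)) 1] at h6

end Pool.Agent.U611.TB
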