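import Pool.Agent.U611.TB.Alg

/-!
# Asymptotics of sums of a sequence which is regular to all orders can be differentiated
-/

set_option autoImplicit false

namespace Pool.Agent.U611.TB

open Finset Filter Topology Pool.Agent.N226.SX

theorem BB_of_Reg {κ : ℝ} {u : ℕ → ℝ} (hu : Reg κ u) {a : ℝ} (ha0 : 0 ≤ a) (ha : a < κ) :
    BB a a (fun n => u n - u (n + 1)) := by
  intro r i _
  rw [← Bd_succ]
  refine Bd.mono (hu a ha0 ha (i + 1) (by omega)) (le_of_eq ?_)
  push_cast; ring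

/-- sums of small differences -/
theorem close {f : ℕ → ℝ} {C a : ℝ} (hC : 0 ≤ C) (ha : 0 ≤ a) {k1 : ℕ}
    (h : ∀ i, k1 ≤ i → |f i - f (i + 1)| ≤ C * (i : ℝ) ^ (-a)) {k : ℕ} (hk1 : k1 ≤ k)
    (hk : 1 ≤ k) (m : ℕ) : |f (k + m) - f k| ≤ m * (C * (k : ℝ) ^ (-a)) := by
  have hk0 : (0 : ℝ) < k := by exact_mod_cast hk
  induction m with
  | zero => simp
  | succ m ih =>
    have h1 := h (k + m) (by omega)
    have h2 : ((k + m : ℕ) : ℝ) ^ (-a) ≤ (k : ℝ) ^ (-a) :=
      Real.rpow_le_rpow_of_nonpos hk0 (by exact_mod_cast (by omega : k ≤ k + m)) (by linarith)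
    have h3 := mul_le_mul_of_nonneg_left h2 hC
    have e : f (k + (m + 1)) - f k = (f (k + m) - f k) - (f (k + m) - f (k + m + 1)) := by
      rw [← add_assoc]; ring
    rw [e]
    calc _ ≤ |f (k + m) - f k| + |f (k + m) - f (k + m + 1)| := abs_sub _ _
      _ ≤ m * (C * (k : ℝ) ^ (-a)) + C * (k : ℝ) ^ (-a) := add_le_add ih (h1.trans h3)
      _ = _ := by push_cast; ring

/-- the sums -/
noncomputable def S (u : ℕ → ℝ) (k : ℕ) : ℝ := ∑ i ∈ range (k + 1), Real.exp (u i)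

theorem S_pos (u : ℕ → ℝ) (k : ℕ) : 0 < S u k :=
  Finset.sum_pos (fun _ _ => Real.exp_pos _) ⟨0, by simp⟩

theorem S_succ (u : ℕ → ℝ) (k : ℕ) : S u (k + 1) = S u k + Real.exp (u (k + 1)) := by
  unfold S
  rw [Finset.sum_range_succ]

theorem S_mono (u : ℕ → ℝ) : Monotone (S u) := by
  refine monotone_nat_of_le_succ fun k => ?_
  rw [S_succ]
  linarith [Real.exp_pos (u (k + 1))]

/-- an index in a sparse sequence -/
theorem index {v : ℕ → ℕ} (hv : Tendsto v atTop atTop) (j0 : ℕ) {k : ℕ} (hk : v j0 ≤ k) :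
    ∃ j, j0 ≤ j ∧ v j ≤ k ∧ k < v (j + 1) := by
  by_contra hcon
  push Not at hcon
  have hall : ∀ i, v (j0 + i) ≤ k := by
    intro i
    induction i with
    | zero => simpa using hk
    | succ i ih => exact hcon (j0 + i) (by omega) ih
  obtain ⟨i0, hi0⟩ := eventually_atTop.1 (hv.eventually_ge_atTop (k + 1))
  have h5 := hall i0
  have h6 := hi0 (j0 + i0) (by omega)
  omega

variable {κ : ℝ} {u E : ℕ → ℝ}

/-- first differences of the asymptotic form -/
theorem E_diff (hE : ∀ a, 0 ≤ a → a ≤ 1 → BB a 1 (fun n => E n - E (n + 1))) :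
    ∃ C : ℝ, 0 ≤ C ∧ ∃ k1 : ℕ, ∀ i, k1 ≤ i → |E i - E (i + 1)| ≤ C * (i : ℝ) ^ (-(1 : ℝ)) := by
  obtain ⟨C, hC⟩ := hE 0 le_rfl zero_le_one 0 0 le_rfl
  obtain ⟨k1, hk1⟩ := eventually_atTop.1 hC
  refine ⟨|C|, abs_nonneg C, k1, fun i hi => ?_⟩
  have h1 := hk1 i hi
  rw [D_zero] at h1
  simp only [CharP.cast_eq_zero, mul_zero, zero_add] at h1
  exact h1.trans (mul_le_mul_of_nonneg_right (le_abs_self C) (by positivity))

/-- the sums are bounded by their asymptotic form -/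
theorem S_le (hE : ∀ a, 0 ≤ a → a ≤ 1 → BB a 1 (fun n => E n - E (n + 1)))
    {M e : ℝ} (hM : 0 ≤ M) (he1 : e ≤ 1) {v : ℕ → ℕ} (hv : Tendsto v atTop atTop)
    (hgap : ∀ᶠ j in atTop, (v (j + 1) : ℝ) ≤ v j + (v j : ℝ) ^ e)
    (hval : ∃ C : ℝ, ∀ᶠ j in atTop, |Real.log (S u (v j)) - E (v j)| ≤ C * (v j : ℝ) ^ (-M)) :
    ∃ C : ℝ, 0 < C ∧ ∀ᶠ k in atTop, S u k ≤ C * Real.exp (E k) := by
  obtain ⟨C, hC, k1, hk1⟩ := E_diff hE
  obtain ⟨C', hC'⟩ := hval
  obtain ⟨j1, hj1⟩ := eventually_atTop.1 (hC'.and (hgap.and (hv.eventually_ge_atTop (max k1 1))))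
  refine ⟨Real.exp (|C'| + C), Real.exp_pos _, ?_⟩
  filter_upwards [eventually_ge_atTop (v j1)] with k hk
  obtain ⟨j, hj, h1, h2⟩ := index hv j1 hk
  obtain ⟨-, h4, h5⟩ := hj1 j hj
  obtain ⟨h3, -, h5'⟩ := hj1 (j + 1) (by omega)
  have hvj : 1 ≤ v j := (le_max_right _ _).trans h5
  have hv0 : (1 : ℝ) ≤ v j := by exact_mod_cast hvj
  have hv1 : (1 : ℝ) ≤ v (j + 1) := by
    exact_mod_cast (le_max_right _ _).trans h5'
  have hk1' : k1 ≤ k := ((le_max_left _ _).trans h5).trans h1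
  have hk0 : 1 ≤ k := hvj.trans h1
  have hkr : (v j : ℝ) ≤ k := by exact_mod_cast h1
  have h6 := close hC zero_le_one hk1 hk1' hk0 (v (j + 1) - k)
  rw [show k + (v (j + 1) - k) = v (j + 1) by omega] at h6
  have h7 : ((v (j + 1) - k : ℕ) : ℝ) * (C * (k : ℝ) ^ (-(1 : ℝ))) ≤ C := by
    have h8 : ((v (j + 1) - k : ℕ) : ℝ) ≤ k := by
      rw [Nat.cast_sub h2.le]
      have : (v j : ℝ) ^ e ≤ v j := by
        calc (v j : ℝ) ^ e ≤ (v j : ℝ) ^ (1 : ℝ) := Real.rpow_le_rpow_of_exponent_le hv0 he1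
          _ = v j := Real.rpow_one _
      linarith
    have hkp : (0 : ℝ) < k := by linarith
    rw [Real.rpow_neg_one]
    calc ((v (j + 1) - k : ℕ) : ℝ) * (C * (k : ℝ)⁻¹) ≤ k * (C * (k : ℝ)⁻¹) :=
          mul_le_mul_of_nonneg_right h8 (by positivity)
      _ = C := by field_simp
  have h9 : C' * (v (j + 1) : ℝ) ^ (-M) ≤ |C'| := by
    calc C' * (v (j + 1) : ℝ) ^ (-M) ≤ |C'| * (v (j + 1) : ℝ) ^ (-M) :=
          mul_le_mul_of_nonneg_right (le_abs_self C') (by positivity)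
      _ ≤ |C'| * 1 := mul_le_mul_of_nonneg_left
          (Real.rpow_le_one_of_one_le_of_nonpos hv1 (by linarith)) (abs_nonneg _)
      _ = |C'| := mul_one _
  have h10 : S u k ≤ S u (v (j + 1)) := S_mono u h2.le
  have h11 : Real.log (S u (v (j + 1))) ≤ E k + (|C'| + C) := by
    have := (abs_le.1 (h3.trans h9)).2
    have h12 := (abs_le.1 (h6.trans h7)).2
    linarith
  calc S u k ≤ S u (v (j + 1)) := h10
    _ = Real.exp (Real.log (S u (v (j + 1)))) := (Real.exp_log (S_pos _ _)).symm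
    _ ≤ Real.exp (E k + (|C'| + C)) := Real.exp_le_exp.2 h11
    _ = Real.exp (|C'| + C) * Real.exp (E k) := by rw [← Real.exp_add]; ring_nf

/-- the terms are small compared with the sums -/
theorem term_le (hκ : κ ≤ 1) (hu : Reg κ u)
    (hE : ∀ a, 0 ≤ a → a ≤ 1 → BB a 1 (fun n => E n - E (n + 1)))
    (hS : ∃ C : ℝ, 0 < C ∧ ∀ᶠ k in atTop, S u k ≤ C * Real.exp (E k))
    {a : ℝ} (ha0 : 0 ≤ a) (ha : a < κ) :
    ∃ C : ℝ, ∀ᶠ n : ℕ in atTop, Real.exp (u (n + 1) - E n) ≤ C * (n : ℝ) ^ (-a) := by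
  obtain ⟨C, hC, k1, hk1⟩ := E_diff hE
  obtain ⟨C', hC', h⟩ := hS
  obtain ⟨k2, hk2⟩ := eventually_atTop.1 h
  obtain ⟨C'', hC''⟩ := (BB_of_Reg hu ha0 ha) 0 0 le_rfl
  obtain ⟨k3, hk3⟩ := eventually_atTop.1 hC''
  have hk3' : ∀ i, k3 ≤ i → |u i - u (i + 1)| ≤ |C''| * (i : ℝ) ^ (-a) := by
    intro i hi
    have h1 := hk3 i hi
    rw [D_zero] at h1
    simp only [CharP.cast_eq_zero, mul_zero, zero_add] at h1
    exact h1.trans (mul_le_mul_of_nonneg_right (le_abs_self _) (by positivity))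
  refine ⟨Real.exp (2 * |C''|) * (C' * Real.exp (2 * C)), ?_⟩
  filter_upwards [eventually_ge_atTop (max (max k1 k2) (max k3 1))] with n hn
  have hn1 : k1 ≤ n := ((le_max_left _ _).trans (le_max_left _ _)).trans hn
  have hn2 : k2 ≤ n := ((le_max_right _ _).trans (le_max_left _ _)).trans hn
  have hn3 : k3 ≤ n := ((le_max_left _ _).trans (le_max_right _ _)).trans hn
  have hn4 : 1 ≤ n := ((le_max_right _ _).trans (le_max_right _ _)).trans hn
  have hnr : (1 : ℝ) ≤ n := by exact_mod_cast hn4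
  have hn0 : (0 : ℝ) < n := by linarith
  set x : ℝ := (n : ℝ) ^ a with hx
  have hx1 : 1 ≤ x := Real.one_le_rpow hnr ha0
  have hxn : x ≤ n := by
    calc x ≤ (n : ℝ) ^ (1 : ℝ) := Real.rpow_le_rpow_of_exponent_le hnr (by linarith)
      _ = n := Real.rpow_one _
  have hxinv : (n : ℝ) ^ (-a) = x⁻¹ := by rw [hx, Real.rpow_neg hn0.le]
  obtain ⟨L, hL⟩ : ∃ L : ℕ, L = ⌊x⌋₊ + 1 := ⟨_, rfl⟩
  have hL1 : x ≤ L := by
    rw [hL]; push_cast; exact (Nat.lt_floor_add_one x).le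
  have hL2 : (L : ℝ) ≤ 2 * x := by
    rw [hL]; push_cast
    have := Nat.floor_le (show 0 ≤ x by linarith)
    linarith
  -- lower bound of the sum
  have h1 : (L : ℝ) * (Real.exp (u (n + 1)) * Real.exp (-(2 * |C''|))) ≤ S u (n + L) := by
    have e1 : S u (n + L) = ∑ i ∈ range (n + 1), Real.exp (u i) +
        ∑ i ∈ range L, Real.exp (u (n + 1 + i)) := by
      unfold S
      rw [← Finset.sum_range_add]
      congr 2
      omega
    have e2 : 0 ≤ ∑ i ∈ range (n + 1), Real.exp (u i) :=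
      Finset.sum_nonneg fun _ _ => (Real.exp_pos _).le
    have e3 : (L : ℝ) * (Real.exp (u (n + 1)) * Real.exp (-(2 * |C''|))) ≤
        ∑ i ∈ range L, Real.exp (u (n + 1 + i)) := by
      have e4 : ∑ _i ∈ range L, Real.exp (u (n + 1)) * Real.exp (-(2 * |C''|)) =
          (L : ℝ) * (Real.exp (u (n + 1)) * Real.exp (-(2 * |C''|))) := by
        rw [Finset.sum_const, card_range, nsmul_eq_mul]
      rw [← e4]
      refine Finset.sum_le_sum fun i hi => ?_
      rw [Finset.mem_range] at hi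
      rw [← Real.exp_add, Real.exp_le_exp]
      have h2 := close (abs_nonneg C'') ha0 hk3' (k := n + 1) (by omega) (by omega) i
      have h3 : (((n + 1 : ℕ) : ℝ)) ^ (-a) ≤ (n : ℝ) ^ (-a) :=
        Real.rpow_le_rpow_of_nonpos hn0 (by push_cast; linarith) (by linarith)
      have h4 : (i : ℝ) * (|C''| * ((n + 1 : ℕ) : ℝ) ^ (-a)) ≤ 2 * |C''| := by
        have h5 : (i : ℝ) ≤ 2 * x := by
          have : (i : ℝ) ≤ L := by exact_mod_cast hi.le
          linarith
        calc (i : ℝ) * (|C''| * ((n + 1 : ℕ) : ℝ) ^ (-a)) ≤ (2 * x) * (|C''| * x⁻¹) := by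
              rw [hxinv] at h3
              exact mul_le_mul h5 (mul_le_mul_of_nonneg_left h3 (abs_nonneg _)) (by positivity)
                (by positivity)
          _ = 2 * |C''| := by field_simp
      have h6 := (abs_le.1 (h2.trans h4)).1
      linarith
    rw [e1]
    linarith
  have h2 := hk2 (n + L) (by omega)
  have h3 : E (n + L) ≤ E n + 2 * C := by
    have h4 := close hC zero_le_one hk1 hn1 hn4 L
    have h5 : (L : ℝ) * (C * (n : ℝ) ^ (-(1 : ℝ))) ≤ 2 * C := by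
      rw [Real.rpow_neg_one]
      calc (L : ℝ) * (C * (n : ℝ)⁻¹) ≤ (2 * n) * (C * (n : ℝ)⁻¹) :=
            mul_le_mul_of_nonneg_right (by linarith) (by positivity)
        _ = 2 * C := by field_simp
    linarith [(abs_le.1 (h4.trans h5)).2]
  have h4 : (L : ℝ) * (Real.exp (u (n + 1)) * Real.exp (-(2 * |C''|))) ≤
      C' * (Real.exp (E n) * Real.exp (2 * C)) := by
    refine h1.trans (h2.trans (mul_le_mul_of_nonneg_left ?_ hC'.le))
    rw [← Real.exp_add, Real.exp_le_exp]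
    exact h3
  have h5 : x * (Real.exp (u (n + 1)) * Real.exp (-(2 * |C''|))) ≤
      C' * (Real.exp (E n) * Real.exp (2 * C)) :=
    (mul_le_mul_of_nonneg_right hL1 (by positivity)).trans h4
  rw [hxinv, Real.exp_sub, div_le_iff₀ (Real.exp_pos _)]
  have hx0 : 0 < x := by linarith
  have h6 : Real.exp (-(2 * |C''|)) * Real.exp (2 * |C''|) = 1 := by
    rw [← Real.exp_add]; simp
  calc Real.exp (u (n + 1)) = (x * (Real.exp (u (n + 1)) * Real.exp (-(2 * |C''|)))) *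
        (Real.exp (2 * |C''|) * x⁻¹) := by
        field_simp
        exact h6.symm
    _ ≤ (C' * (Real.exp (E n) * Real.exp (2 * C))) * (Real.exp (2 * |C''|) * x⁻¹) :=
        mul_le_mul_of_nonneg_right h5 (by positivity)
    _ = _ := by ring

/-- the quotient of the sums and the asymptotic form -/
noncomputable def X (u E : ℕ → ℝ) (k : ℕ) : ℝ := S u k / Real.exp (E k)

theorem X_diff (u E : ℕ → ℝ) (n : ℕ) : X u E n - X u E (n + 1) =
    -1 * Real.exp (u (n + 1) - E n) +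
      X u E (n + 1) * (Real.exp (-1 * (E n - E (n + 1))) - 1) := by
  unfold X
  rw [S_succ, Real.exp_sub]
  have h1 : Real.exp (-1 * (E n - E (n + 1))) = Real.exp (E (n + 1)) / Real.exp (E n) := by
    rw [← Real.exp_sub]
    congr 1
    ring
  rw [h1]
  have h2 := Real.exp_pos (E n)
  have h3 := Real.exp_pos (E (n + 1))
  field_simp
  ring

theorem X_B (hκ : κ ≤ 1) (hu : Reg κ u)
    (hE : ∀ a, 0 ≤ a → a ≤ 1 → BB a 1 (fun n => E n - E (n + 1)))
    (hS : ∃ C : ℝ, 0 < C ∧ ∀ᶠ k in atTop, S u k ≤ C * Real.exp (E k))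
    {a : ℝ} (ha0 : 0 ≤ a) (ha : a < κ) (r : ℕ) : B a r 0 (X u E) := by
  have ha1 : a ≤ 1 := by linarith
  have hX0 : B a 0 0 (X u E) := by
    rw [B_zero]
    obtain ⟨C, hC, h⟩ := hS
    refine ⟨C, ?_⟩
    filter_upwards [h] with k hk
    rw [D_zero, neg_zero, Real.rpow_zero, mul_one]
    unfold X
    rw [abs_of_pos (div_pos (S_pos _ _) (Real.exp_pos _)), div_le_iff₀ (Real.exp_pos _)]
    exact hk
  -- the terms
  have hY : BB a a (fun n => Real.exp (u (n + 1) - E n)) := by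
    have hg : BB a a (fun n => (u (n + 1) - E n) - (u (n + 1 + 1) - E (n + 1))) := by
      have h1 := (BB_of_Reg hu ha0 ha).shift ha0 ha0
      have h2 := (hE a ha0 ha1).mono ha1
      refine cast ?_ (h1.sub h2)
      congr 1
      funext n
      ring
    obtain ⟨C, hC⟩ := term_le hκ hu hE hS ha0 ha
    intro r i _
    obtain ⟨V, hV, hVe⟩ := weight ha0 hg i (fun _ => 1) 0 le_rfl (fun r => B_const 1)
    obtain ⟨C', hC'⟩ := hV 0 0 le_rfl
    refine ⟨|C| * |C'|, ?_⟩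
    filter_upwards [hC, hC', eventually_ge_atTop 1] with n h1 h2 h3
    have hn0 : (0 : ℝ) < n := by exact_mod_cast h3
    have h4 := hVe n
    simp only [mul_one] at h4
    rw [h4, abs_mul, abs_of_pos (Real.exp_pos _)]
    rw [D_zero] at h2
    simp only [CharP.cast_eq_zero, mul_zero, zero_add] at h2
    have h5 : Real.exp (u (n + 1) - E n) ≤ |C| * (n : ℝ) ^ (-a) :=
      h1.trans (mul_le_mul_of_nonneg_right (le_abs_self C) (by positivity))
    have h6 : |V n| ≤ |C'| * (n : ℝ) ^ (-(a * i)) :=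
      h2.trans (mul_le_mul_of_nonneg_right (le_abs_self C') (by positivity))
    calc Real.exp (u (n + 1) - E n) * |V n|
        ≤ (|C| * (n : ℝ) ^ (-a)) * (|C'| * (n : ℝ) ^ (-(a * i))) :=
          mul_le_mul h5 h6 (abs_nonneg _) (by positivity)
      _ = |C| * |C'| * (n : ℝ) ^ (-(a * i + a)) := by
          rw [neg_add, Real.rpow_add hn0]
          ring
  have hG : BB a 1 (fun n => Real.exp (-1 * (E n - E (n + 1))) - 1) :=
    BB.expm1 ha0 zero_le_one ((hE a ha0 ha1).smul (-1))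
  induction r with
  | zero => exact hX0
  | succ r ih =>
    refine B_succ.2 ⟨hX0, ?_⟩
    have h1 : B a r a (fun n => -1 * Real.exp (u (n + 1) - E n)) := (hY r).smul (-1)
    have h2 : B a r (0 + 1) (fun n => X u E (n + 1) *
        (Real.exp (-1 * (E n - E (n + 1))) - 1)) :=
      B_mul ha0 r _ _ 0 1 le_rfl zero_le_one (ih.shift ha0 le_rfl) (hG r)
    have h3 := h1.add (h2.mono le_rfl (by linarith))
    refine cast ?_ (h3.mono le_rfl (le_of_eq (by ring) : 0 + a ≤ _))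
    congr 1
    funext n
    rw [X_diff]

/-- **Differentiation of asymptotics.** -/
theorem main (hκ : κ ≤ 1) (hu : Reg κ u)
    (hE : ∀ a, 0 ≤ a → a ≤ 1 → BB a 1 (fun n => E n - E (n + 1)))
    (M e : ℝ) (hM : 0 ≤ M) (he0 : 0 ≤ e) (he : e < κ) (v : ℕ → ℕ) (hv : Tendsto v atTop atTop)
    (hgap : ∀ᶠ j in atTop, (v (j + 1) : ℝ) ≤ v j + (v j : ℝ) ^ e)
    (hval : ∃ C : ℝ, ∀ᶠ j in atTop, |Real.log (S u (v j)) - E (v j)| ≤ C * (v j : ℝ) ^ (-M))
    (r : ℕ) (b : ℝ) (hb0 : 0 ≤ b) (hb : b < κ) : ∃ C : ℝ, 0 ≤ C ∧ ∀ᶠ k : ℕ in atTop,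
      |D r (fun k => Real.exp (u (k + 1)) - (Real.exp (E (k + 1)) - Real.exp (E k))) k| ≤
        C * Real.exp (E k) * (k : ℝ) ^ (-(M + b * (r + 1))) := by
  have hS := S_le hE hM (by linarith) hv hgap hval
  have hreg : Reg κ (fun k => X u E k - 1) := by
    intro a ha0 ha s hs
    have h1 := (X_B hκ hu hE hS ha0 ha s).sub (B_const (a := a) (r := s) 1)
    have h2 := h1 s le_rfl
    exact h2.mono (by linarith)
  have hval' : ∃ C : ℝ, ∀ᶠ j in atTop, |(fun k => X u E k - 1) (v j)| ≤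
      C * (v j : ℝ) ^ (-M) := by
    obtain ⟨C, hC⟩ := hval
    refine ⟨|C| * Real.exp |C|, ?_⟩
    filter_upwards [hC, hv.eventually_ge_atTop 1] with j h1 h2
    have hv1 : (1 : ℝ) ≤ v j := by exact_mod_cast h2
    have e1 : X u E (v j) = Real.exp (Real.log (S u (v j)) - E (v j)) := by
      unfold X
      rw [Real.exp_sub, Real.exp_log (S_pos _ _)]
    have h3 : |Real.log (S u (v j)) - E (v j)| ≤ |C| * (v j : ℝ) ^ (-M) :=
      h1.trans (mul_le_mul_of_nonneg_right (le_abs_self C) (by positivity))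
    have h4 : |Real.log (S u (v j)) - E (v j)| ≤ |C| := h3.trans (by
      calc |C| * (v j : ℝ) ^ (-M) ≤ |C| * 1 := mul_le_mul_of_nonneg_left
            (Real.rpow_le_one_of_one_le_of_nonpos hv1 (by linarith)) (abs_nonneg C)
        _ = |C| := mul_one _)
    rw [e1]
    calc _ ≤ _ := abs_exp_sub_one_le _
      _ ≤ (|C| * (v j : ℝ) ^ (-M)) * Real.exp |C| :=
        mul_le_mul h3 (Real.exp_le_exp.2 h4) (Real.exp_pos _).le (by positivity)
      _ = _ := by ring
  have hH : BB b M (fun k => X u E k - 1) := by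
    intro r i _
    refine (sparse hreg hκ hM he0 he v hv hgap hval' i b hb0 hb).mono (le_of_eq (by ring))
  have hb1 : b ≤ 1 := by linarith
  have hEb := hE b hb0 hb1
  have hZ : BB b (M + b) (fun k => -1 * ((X u E k - 1) - (X u E (k + 1) - 1)) +
      (Real.exp (-1 * (E k - E (k + 1))) - 1) * (X u E (k + 1) - 1)) := by
    have h1 : BB b (M + b) (fun k => -1 * ((X u E k - 1) - (X u E (k + 1) - 1))) :=
      hH.diff.smul (-1)
    have h2 : BB b (1 + M) (fun k => (Real.exp (-1 * (E k - E (k + 1))) - 1) *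
        (X u E (k + 1) - 1)) :=
      BB.mul hb0 zero_le_one hM (BB.expm1 hb0 zero_le_one (hEb.smul (-1))) (hH.shift hb0 hM)
    exact h1.add (h2.mono (by linarith))
  obtain ⟨V, hV, hVe⟩ := weight hb0 (hEb.mono hb1) r _ (M + b) (by linarith) hZ
  obtain ⟨C, hC⟩ := hV 0 0 le_rfl
  refine ⟨|C|, abs_nonneg C, ?_⟩
  filter_upwards [hC, eventually_ge_atTop 1] with k h1 h2
  rw [D_zero] at h1
  simp only [CharP.cast_eq_zero, mul_zero, zero_add] at h1
  have e1 : ∀ n, Real.exp (u (n + 1)) - (Real.exp (E (n + 1)) - Real.exp (E n)) =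
      Real.exp (E n) * (-1 * ((X u E n - 1) - (X u E (n + 1) - 1)) +
      (Real.exp (-1 * (E n - E (n + 1))) - 1) * (X u E (n + 1) - 1)) := by
    intro n
    have h3 : Real.exp (-1 * (E n - E (n + 1))) = Real.exp (E (n + 1)) / Real.exp (E n) := by
      rw [← Real.exp_sub]
      congr 1
      ring
    rw [h3]
    unfold X
    rw [S_succ]
    have h4 := Real.exp_pos (E n)
    have h5 := Real.exp_pos (E (n + 1))
    field_simp
    ring
  have e2 : D r (fun k => Real.exp (u (k + 1)) - (Real.exp (E (k + 1)) - Real.exp (E k))) k =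
      Real.exp (E k) * V k := by
    rw [← hVe k]
    exact D_congr _ _ _ _ fun i _ => e1 _
  rw [e2, abs_mul, abs_of_pos (Real.exp_pos _)]
  have h6 : |V k| ≤ |C| * (k : ℝ) ^ (-(M + b + b * r)) :=
    h1.trans (mul_le_mul_of_nonneg_right (le_abs_self C) (by positivity))
  calc Real.exp (E k) * |V k| ≤ Real.exp (E k) * (|C| * (k : ℝ) ^ (-(M + b + b * r))) :=
        mul_le_mul_of_nonneg_left h6 (Real.exp_pos _).le
    _ = |C| * Real.exp (E k) * (k : ℝ) ^ (-(M + b * (r + 1))) := by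
        rw [show M + b + b * r = M + b * (r + 1) by ring]
        ring

end Pool.Agent.U611.TB
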