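import Pool.Agent.U611.TB.Pkg

/-!
# From one parity class to all lengths
-/

set_option autoImplicit false

namespace Pool.Agent.U611.TB

open Finset Filter Topology Pool.Agent.N226.SX

theorem step_bd {κ : ℝ} (hκ : 0 < κ) {f : ℕ → ℝ} (hsub : ∀ n m, f (n + m) ≤ f n + f m)
    (hreg : ∀ ρ : ℕ, Reg κ (fun k => f (2 * k + ρ))) :
    ∃ K : ℝ, ∀ᶠ n : ℕ in atTop, |f (n + 1) - f n| ≤ K := by
  have h2 : ∀ ρ : ℕ, ∃ K : ℝ, ∀ᶠ k : ℕ in atTop, |f (2 * k + ρ) - f (2 * k + ρ + 2)| ≤ K := by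
    intro ρ
    obtain ⟨K, hK⟩ := hreg ρ 0 le_rfl hκ 1 le_rfl
    refine ⟨K, ?_⟩
    filter_upwards [hK] with k hk
    rw [D_succ, D_zero, D_zero] at hk
    simp only [zero_mul, neg_zero, Real.rpow_zero, mul_one] at hk
    have e : 2 * (k + 1) + ρ = 2 * k + ρ + 2 := by ring
    rw [e] at hk
    exact hk
  obtain ⟨K0, hK0⟩ := h2 0
  obtain ⟨K1, hK1⟩ := h2 1
  obtain ⟨N0, hN0⟩ := eventually_atTop.1 hK0
  obtain ⟨N1, hN1⟩ := eventually_atTop.1 hK1
  have h3 : ∀ n, 2 * (N0 + N1) + 2 ≤ n → |f n - f (n + 2)| ≤ max K0 K1 := by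
    intro n hn
    rcases Nat.even_or_odd' n with ⟨k, hk | hk⟩
    · have := hN0 k (by omega)
      rw [hk]
      exact this.trans (le_max_left _ _)
    · have := hN1 k (by omega)
      rw [hk]
      exact this.trans (le_max_right _ _)
  refine ⟨|f 1| + max K0 K1, ?_⟩
  filter_upwards [eventually_ge_atTop (2 * (N0 + N1) + 2)] with n hn
  have a1 := hsub n 1
  have a2 := hsub (n + 1) 1
  have a3 := h3 n hn
  have a4 := le_abs_self (f 1)
  have a5 := (abs_nonneg _).trans a3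
  have a6 := abs_nonneg (f 1)
  rw [abs_le] at a3
  rw [abs_le]
  constructor
  · have : f (n + 2) ≤ f (n + 1) + f 1 := a2
    linarith [a3.2]
  · linarith

theorem all_two {f : ℕ → ℝ} {K : ℝ} (hK : ∀ᶠ n : ℕ in atTop, |f (n + 1) - f n| ≤ K) (ρ : ℕ)
    {α : ℝ} (h4 : Tendsto (fun k : ℕ => f (2 * k + ρ) / Real.log ((2 * k + ρ : ℕ) : ℝ)) atTop
      (𝓝 α)) : Tendsto (fun n : ℕ => f n / Real.log n) atTop (𝓝 α) := by
  have hN : Tendsto (fun k : ℕ => ((2 * k + ρ : ℕ) : ℝ)) atTop atTop :=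
    tendsto_natCast_atTop_atTop.comp (tendsto_atTop_mono
      (fun k => (by omega : k ≤ 2 * k + ρ)) tendsto_id)
  have hl := Real.tendsto_log_atTop.comp hN
  obtain ⟨N, hN1⟩ := eventually_atTop.1 hK
  have h5 : Tendsto (fun k : ℕ => (f (2 * k + ρ) - f (2 * k)) /
      Real.log ((2 * k + ρ : ℕ) : ℝ)) atTop (𝓝 0) := by
    have h6 : Tendsto (fun k : ℕ => (ρ * K) / Real.log ((2 * k + ρ : ℕ) : ℝ)) atTop
        (𝓝 0) := hl.const_div_atTop _
    refine squeeze_zero_norm' ?_ h6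
    filter_upwards [hN.eventually_gt_atTop 1, eventually_ge_atTop N] with k hk hkN
    have h7 : 0 < Real.log ((2 * k + ρ : ℕ) : ℝ) := Real.log_pos hk
    rw [norm_div, Real.norm_eq_abs, Real.norm_eq_abs, abs_of_pos h7]
    refine div_le_div_of_nonneg_right ?_ h7.le
    have h8 : ∀ i : ℕ, |f (2 * k + i) - f (2 * k)| ≤ i * K := by
      intro i
      induction i with
      | zero => simp
      | succ i ih =>
        have h9 := hN1 (2 * k + i) (by omega)
        calc |f (2 * k + (i + 1)) - f (2 * k)| =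
              |(f (2 * k + i + 1) - f (2 * k + i)) + (f (2 * k + i) - f (2 * k))| := by
                congr 1; rw [← add_assoc]; ring
          _ ≤ _ := abs_add_le _ _
          _ ≤ K + i * K := add_le_add h9 ih
          _ = ((i + 1 : ℕ) : ℝ) * K := by push_cast; ring
    exact h8 ρ
  have hN0 : Tendsto (fun k : ℕ => ((2 * k : ℕ) : ℝ)) atTop atTop :=
    tendsto_natCast_atTop_atTop.comp (tendsto_atTop_mono
      (fun k => (by omega : k ≤ 2 * k)) tendsto_id)
  have hl0 := Real.tendsto_log_atTop.comp hN0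
  have hr : Tendsto (fun k : ℕ => Real.log ((2 * k + ρ : ℕ) : ℝ) /
      Real.log ((2 * k : ℕ) : ℝ)) atTop (𝓝 1) := by
    have h1 : Tendsto (fun k : ℕ => Real.log (1 + ρ / ((2 * k : ℕ) : ℝ)) /
        Real.log ((2 * k : ℕ) : ℝ) + 1) atTop (𝓝 (0 + 1)) := by
      refine Tendsto.add_const 1 ?_
      have h2 : Tendsto (fun k : ℕ => (ρ : ℝ) / ((2 * k : ℕ) : ℝ)) atTop (𝓝 0) :=
        hN0.const_div_atTop _
      have h3 : Tendsto (fun k : ℕ => Real.log (1 + ρ / ((2 * k : ℕ) : ℝ))) atTop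
          (𝓝 (Real.log (1 + 0))) :=
        ((h2.const_add 1).log (by norm_num))
      rw [add_zero, Real.log_one] at h3
      exact h3.div_atTop hl0
    rw [zero_add] at h1
    refine h1.congr' ?_
    filter_upwards [hN0.eventually_gt_atTop 1] with k hk
    have h2 : (0 : ℝ) < ((2 * k : ℕ) : ℝ) := by linarith
    have h3 : 0 < Real.log ((2 * k : ℕ) : ℝ) := Real.log_pos hk
    have h4 : ((2 * k + ρ : ℕ) : ℝ) = ((2 * k : ℕ) : ℝ) * (1 + ρ / ((2 * k : ℕ) : ℝ)) := by
      field_simp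
      push_cast
      ring
    rw [h4, Real.log_mul h2.ne' (by positivity)]
    field_simp
    ring
  have h6 : Tendsto (fun k : ℕ => f (2 * k) / Real.log ((2 * k : ℕ) : ℝ)) atTop
      (𝓝 α) := by
    have h7 := (h4.sub h5).mul hr
    rw [sub_zero, mul_one] at h7
    refine h7.congr' ?_
    filter_upwards [hN.eventually_gt_atTop 1, hN0.eventually_gt_atTop 1] with k hk hk0
    have h8 : 0 < Real.log ((2 * k + ρ : ℕ) : ℝ) := Real.log_pos hk
    have h9 : 0 < Real.log ((2 * k : ℕ) : ℝ) := Real.log_pos hk0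
    field_simp
    ring
  exact Pool.Agent.U611.DX.lead_all 2 (by norm_num) hK h6

end Pool.Agent.U611.TB
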