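import Pool.Agent.U611.TB.Lead

/-!
# Truncated sums with power weights along an arithmetic progression
-/

set_option autoImplicit false

namespace Pool.Agent.U611.TB

open Finset Filter Topology Pool.Agent.N226.SX

/-- the logarithm of the weighted terms -/
noncomputable def UU (st ρ : ℕ) (m : ℝ) (f : ℕ → ℝ) (k : ℕ) : ℝ :=
  m * Real.log ((st * k + ρ + 1 : ℕ) : ℝ) + f (st * k + ρ)

theorem exp_UU (st ρ : ℕ) (m : ℝ) (f : ℕ → ℝ) (k : ℕ) : Real.exp (UU st ρ m f k) =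
    (((st * k + ρ + 1 : ℕ) : ℝ)) ^ m * Real.exp (f (st * k + ρ)) := by
  unfold UU
  have h1 : (0 : ℝ) < ((st * k + ρ + 1 : ℕ) : ℝ) := by positivity
  rw [Real.exp_add, mul_comm m, Real.exp_mul, Real.exp_log h1]

/-- the truncated sums -/
noncomputable def TS (st ρ : ℕ) (m : ℝ) (f : ℕ → ℝ) (k : ℕ) : ℝ :=
  ∑ i ∈ range (k + 1), (((st * i + ρ + 1 : ℕ) : ℝ)) ^ m * Real.exp (f (st * i + ρ))

theorem TS_eq (st ρ : ℕ) (m : ℝ) (f : ℕ → ℝ) (k : ℕ) : TS st ρ m f k = S (UU st ρ m f) k := by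
  unfold TS S
  exact Finset.sum_congr rfl fun i _ => (exp_UU st ρ m f i).symm

theorem UU_reg {κ : ℝ} (hκ : κ ≤ 1) {f : ℕ → ℝ} (st : ℕ) (hst : 1 ≤ st) (ρ : ℕ)
    (hf : Reg κ (fun k => f (st * k + ρ))) (m : ℝ) : Reg κ (UU st ρ m f) := by
  have h1 : Reg κ (fun k : ℕ => m * Real.log ((st * k + ρ + 1 : ℕ) : ℝ)) := by
    have := reg_Gs κ hκ st hst (ρ + 1) 0 m (fun i => i.elim0) (fun i => i.elim0)
      (fun i => i.elim0)
    refine cast ?_ this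
    congr 1
    funext k
    unfold G
    push_cast
    simp [add_assoc]
  have h2 : Reg κ (fun k : ℕ => -1 * f (st * k + ρ)) :=
    fun a h0 h r hr => (hf a h0 h r hr).smul (-1)
  refine cast ?_ (h1.sub h2)
  congr 1
  funext k
  unfold UU
  ring

/-- the differences of the weighted terms -/
theorem pkg_diff {κ : ℝ} (hκ : κ ≤ 1) {f : ℕ → ℝ} (st : ℕ) (hst : 1 ≤ st) (ρ : ℕ)
    (hf : Reg κ (fun k => f (st * k + ρ))) (m : ℝ) (v : ℕ → ℕ) (e : ℝ)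
    (hv : Tendsto v atTop atTop) (he0 : 0 ≤ e) (he : e < κ)
    (hgap : ∀ᶠ j : ℕ in atTop, (v (j + 1) : ℝ) ≤ v j + (v j : ℝ) ^ e)
    (q : ℕ) (β : ℝ) (c θ : Fin q → ℝ) (hθ : ∀ i, 0 ≤ θ i) (M : ℝ) (hM : 0 ≤ M)
    (hval : ∃ K : ℝ, ∀ᶠ j : ℕ in atTop,
      |Real.log (TS st ρ m f (v j)) - G q β c θ ((st * v j + ρ : ℕ) : ℝ)| ≤
        K * (v j : ℝ) ^ (-M))
    (r : ℕ) (b : ℝ) (hb0 : 0 ≤ b) (hb : b < κ) : ∃ K : ℝ, 0 ≤ K ∧ ∀ᶠ k : ℕ in atTop,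
      |D r (fun k => Real.exp (UU st ρ m f (k + 1)) -
        (Real.exp (EE st ρ q β c θ (k + 1)) - Real.exp (EE st ρ q β c θ k))) k| ≤
        K * Real.exp (EE st ρ q β c θ k) * (k : ℝ) ^ (-(M + b * (r + 1))) := by
  refine main hκ (UU_reg hκ st hst ρ hf m) (EE_BB st hst ρ q β c θ hθ) M e hM he0 he v hv hgap ?_
    r b hb0 hb
  obtain ⟨K, hK⟩ := hval
  refine ⟨K, ?_⟩
  filter_upwards [hK] with j hj
  rw [TS_eq] at hj
  exact hj

/-- the same with differences of step `st` -/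
theorem pkg_one {κ : ℝ} (hκ : κ ≤ 1) {f : ℕ → ℝ} (st : ℕ) (hst : 1 ≤ st) (ρ : ℕ)
    (hf : Reg κ (fun k => f (st * k + ρ))) (m : ℝ) (v : ℕ → ℕ) (e : ℝ)
    (hv : Tendsto v atTop atTop) (he0 : 0 ≤ e) (he : e < κ)
    (hgap : ∀ᶠ j : ℕ in atTop, (v (j + 1) : ℝ) ≤ v j + (v j : ℝ) ^ e)
    (q : ℕ) (β : ℝ) (c θ : Fin q → ℝ) (hθ : ∀ i, 0 ≤ θ i) (M : ℝ) (hM : 0 ≤ M)
    (hval : ∃ K : ℝ, ∀ᶠ j : ℕ in atTop,
      |Real.log (TS st ρ m f (v j)) - G q β c θ ((st * v j + ρ : ℕ) : ℝ)| ≤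
        K * (v j : ℝ) ^ (-M))
    (r : ℕ) (b : ℝ) (hb0 : 0 ≤ b) (hb : b < κ) : ∃ K : ℝ, ∀ᶠ k : ℕ in atTop,
      |Ds st r (fun n => ((n + st + 1 : ℕ) : ℝ) ^ m * Real.exp (f (n + st)) -
        (Real.exp (G q β c θ ((n + st : ℕ) : ℝ)) - Real.exp (G q β c θ (n : ℝ)))) (st * k + ρ)| ≤
        K * Real.exp (G q β c θ ((st * k + ρ : ℕ) : ℝ)) * (k : ℝ) ^ (-(M + b * (r + 1))) := by
  obtain ⟨K, -, hK⟩ := pkg_diff hκ st hst ρ hf m v e hv he0 he hgap q β c θ hθ M hM hval r b hb0 hb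
  refine ⟨K, ?_⟩
  filter_upwards [hK] with k hk
  rw [Ds_eq]
  have e1 : D r (fun k => ((st * k + ρ + st + 1 : ℕ) : ℝ) ^ m * Real.exp (f (st * k + ρ + st)) -
        (Real.exp (G q β c θ ((st * k + ρ + st : ℕ) : ℝ)) -
          Real.exp (G q β c θ ((st * k + ρ : ℕ) : ℝ)))) k =
      D r (fun k => Real.exp (UU st ρ m f (k + 1)) -
        (Real.exp (EE st ρ q β c θ (k + 1)) - Real.exp (EE st ρ q β c θ k))) k := by
    refine D_congr _ _ _ _ fun i _ => ?_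
    have e2 : st * (k + i) + ρ + st = st * (k + i + 1) + ρ := by ring
    rw [e2, exp_UU]
    rfl
  rw [e1]
  exact hk

theorem shift_lim' (st : ℕ) (hst : 1 ≤ st) (m : ℝ) (ρ : ℕ) : Tendsto (fun k : ℕ =>
    (((st * k + ρ : ℕ) : ℝ) / ((st * k + ρ + 1 : ℕ) : ℝ)) ^ m) atTop (𝓝 1) := by
  have hN : Tendsto (fun k : ℕ => ((st * k + ρ + 1 : ℕ) : ℝ)) atTop atTop :=
    tendsto_natCast_atTop_atTop.comp (tendsto_atTop_mono
      (fun k => ((Nat.le_mul_of_pos_left k hst).trans (by omega) : k ≤ st * k + ρ + 1))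
      tendsto_id)
  have h1 : Tendsto (fun k : ℕ => ((st * k + ρ : ℕ) : ℝ) / ((st * k + ρ + 1 : ℕ) : ℝ)) atTop
      (𝓝 1) := by
    have h2 := (tendsto_inv_atTop_zero.comp hN).const_sub 1
    rw [sub_zero] at h2
    refine h2.congr fun k => ?_
    simp only [Function.comp_apply]
    have : (0 : ℝ) < ((st * k + ρ + 1 : ℕ) : ℝ) := by positivity
    field_simp
    push_cast
    ring
  have h2 := h1.rpow_const (p := m) (Or.inl one_ne_zero)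
  rwa [Real.one_rpow] at h2

/-- the leading order of the terms -/
theorem pkg_two {κ : ℝ} (hκ : κ ≤ 1) {f : ℕ → ℝ} (st : ℕ) (hst : 1 ≤ st) (ρ : ℕ)
    (hf : Reg κ (fun k => f (st * k + ρ))) (m : ℝ) (v : ℕ → ℕ) (e : ℝ)
    (hv : Tendsto v atTop atTop) (he0 : 0 ≤ e) (he : e < κ)
    (hgap : ∀ᶠ j : ℕ in atTop, (v (j + 1) : ℝ) ≤ v j + (v j : ℝ) ^ e)
    (q : ℕ) (β : ℝ) (c θ : Fin q → ℝ) (hθ : ∀ i, 0 ≤ θ i) (M : ℝ) (hM : 0 ≤ M)
    (hMκ : 1 - κ < M)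
    (hval : ∃ K : ℝ, ∀ᶠ j : ℕ in atTop,
      |Real.log (TS st ρ m f (v j)) - G q β c θ ((st * v j + ρ : ℕ) : ℝ)| ≤
        K * (v j : ℝ) ^ (-M)) :
    Tendsto (fun k : ℕ => ((st * k + ρ : ℕ) : ℝ) ^ (m + 1) * Real.exp (f (st * k + ρ)) /
      Real.exp (G q β c θ ((st * k + ρ : ℕ) : ℝ))) atTop (𝓝 (st * β)) := by
  have hb : ∃ b : ℝ, 0 ≤ b ∧ b < κ ∧ 1 < M + b := by
    refine ⟨max 0 ((1 - M + κ) / 2), le_max_left _ _, ?_, ?_⟩
    · exact max_lt (lt_of_le_of_lt he0 he) (by linarith)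
    · have := le_max_right 0 ((1 - M + κ) / 2)
      linarith
  obtain ⟨b, hb0, hb, hMb⟩ := hb
  obtain ⟨K, hK0, hK⟩ := pkg_diff hκ st hst ρ hf m v e hv he0 he hgap q β c θ hθ M hM hval
    0 b hb0 hb
  have h := term_lim (u := UU st ρ m f) st hst ρ q β c θ hθ hMb ⟨K, hK0, by
    filter_upwards [hK] with k hk
    rw [D_zero] at hk
    simpa using hk⟩
  have h1 := h.mul (shift_lim' st hst m ρ)
  rw [mul_one] at h1
  refine h1.congr' ?_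
  filter_upwards [eventually_ge_atTop 1] with k hk
  have a0 : (0 : ℝ) < ((st * k + ρ : ℕ) : ℝ) := by
    exact_mod_cast Nat.add_pos_left (Nat.mul_pos hst hk) _
  have a1 : (0 : ℝ) < ((st * k + ρ + 1 : ℕ) : ℝ) := by positivity
  rw [Real.exp_sub, exp_UU, Real.div_rpow a0.le a1.le, Real.rpow_add_one a0.ne']
  have a2 : 0 < (((st * k + ρ + 1 : ℕ) : ℝ)) ^ m := Real.rpow_pos_of_pos a1 m
  have a3 : EE st ρ q β c θ k = G q β c θ ((st * k + ρ : ℕ) : ℝ) := rfl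
  rw [a3]
  have a4 := Real.exp_pos (G q β c θ ((st * k + ρ : ℕ) : ℝ))
  field_simp

/-- the exponent of the terms -/
theorem pkg_three {f : ℕ → ℝ} (st : ℕ) (hst : 1 ≤ st) (ρ : ℕ) (m : ℝ)
    (q : ℕ) (β : ℝ) (c θ : Fin q → ℝ) (hθ : ∀ i, 0 ≤ θ i) (hβ : 0 < β)
    (h : Tendsto (fun k : ℕ => ((st * k + ρ : ℕ) : ℝ) ^ (m + 1) * Real.exp (f (st * k + ρ)) /
      Real.exp (G q β c θ ((st * k + ρ : ℕ) : ℝ))) atTop (𝓝 (st * β))) :
    Tendsto (fun k : ℕ => f (st * k + ρ) / Real.log ((st * k + ρ : ℕ) : ℝ)) atTop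
      (𝓝 (β - m - 1)) := by
  have hs0 : (0 : ℝ) < st := by exact_mod_cast hst
  have hN : Tendsto (fun k : ℕ => ((st * k + ρ : ℕ) : ℝ)) atTop atTop :=
    tendsto_natCast_atTop_atTop.comp (tendsto_atTop_mono
      (fun k => ((Nat.le_mul_of_pos_left k hst).trans (by omega) : k ≤ st * k + ρ))
      tendsto_id)
  have hl := Real.tendsto_log_atTop.comp hN
  have h1 : Tendsto (fun k : ℕ => Real.log (((st * k + ρ : ℕ) : ℝ) ^ (m + 1) *
      Real.exp (f (st * k + ρ)) / Real.exp (G q β c θ ((st * k + ρ : ℕ) : ℝ))) /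
      Real.log ((st * k + ρ : ℕ) : ℝ)) atTop
      (𝓝 0) := (h.log (by positivity)).div_atTop hl
  have h2 : Tendsto (fun k : ℕ => (∑ i, c i * ((st * k + ρ : ℕ) : ℝ) ^ (-(θ i))) /
      Real.log ((st * k + ρ : ℕ) : ℝ)) atTop (𝓝 0) := by
    have h3 : Tendsto (fun k : ℕ => (∑ i, |c i|) / Real.log ((st * k + ρ : ℕ) : ℝ)) atTop
        (𝓝 0) := hl.const_div_atTop _
    refine squeeze_zero_norm' ?_ h3
    filter_upwards [hN.eventually_gt_atTop 1] with k hk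
    have h4 : 0 < Real.log ((st * k + ρ : ℕ) : ℝ) := Real.log_pos hk
    rw [norm_div, Real.norm_eq_abs, Real.norm_eq_abs, abs_of_pos h4]
    refine div_le_div_of_nonneg_right ?_ h4.le
    refine (Finset.abs_sum_le_sum_abs _ _).trans (Finset.sum_le_sum fun i _ => ?_)
    rw [abs_mul, abs_of_nonneg (Real.rpow_nonneg (by linarith) _)]
    calc |c i| * (((st * k + ρ : ℕ) : ℝ)) ^ (-(θ i)) ≤ |c i| * 1 :=
          mul_le_mul_of_nonneg_left (Real.rpow_le_one_of_one_le_of_nonpos hk.le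
            (by linarith [hθ i])) (abs_nonneg _)
      _ = |c i| := mul_one _
  have h5 := (h1.add h2).add_const (β - m - 1)
  have e : (0 : ℝ) + 0 + (β - m - 1) = β - m - 1 := by ring
  rw [e] at h5
  refine h5.congr' ?_
  filter_upwards [hN.eventually_gt_atTop 1] with k hk
  have h6 : 0 < Real.log ((st * k + ρ : ℕ) : ℝ) := Real.log_pos hk
  have h7 : (0 : ℝ) < ((st * k + ρ : ℕ) : ℝ) := by linarith
  have h8 : (0 : ℝ) < ((st * k + ρ : ℕ) : ℝ) ^ (m + 1) := Real.rpow_pos_of_pos h7 _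
  rw [Real.log_div (by positivity) (Real.exp_pos _).ne',
    Real.log_mul h8.ne' (Real.exp_pos _).ne', Real.log_exp, Real.log_exp, Real.log_rpow h7]
  have e1 : G q β c θ ((st * k + ρ : ℕ) : ℝ) = β * Real.log ((st * k + ρ : ℕ) : ℝ) +
      ∑ i, c i * ((st * k + ρ : ℕ) : ℝ) ^ (-(θ i)) := rfl
  rw [e1]
  field_simp
  ring

end Pool.Agent.U611.TB
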